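import Pool.Agent.R444.FBL.Main

/-!
# Norm attainment of lattice extensions in free `p`-convex Banach lattices

`x^*` attains its norm on `E` if and only if its lattice extension attains its norm on
`FBL^(p)[E]`, for every Banach space `E` and every `1 ≤ p < ∞`.

Idea: let `‖x^*‖ = 1 = φ(x^*)`, `‖φ‖ ≤ 1`, where `φ(z)` is the value at `φ` of the lattice extension
of `z`. By the theorem of Mazur and Orlicz there is `F` in the unit ball of `E^**` with
`(|φ(x^* + t z)|^p - 1 - C t²)/(p t) ≤ F(z)` for all `‖z‖ ≤ 1`, `0 < t ≤ 1/4`. The left side is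
weak*-continuous in `z`, so `F` is weak*-continuous at `0` on the unit ball; hence `F` is the
evaluation at some `x` in the unit ball of `E`, and `x^*(x) ≥ 1`.
-/

set_option autoImplicit false

open Set

namespace Pool.Agent.Results.MP_43bafb_an.NormAttaining

open Pool.Agent.R444.FBL

universe u

variable {L : Type u} [NormedAddCommGroup L] [NormedSpace ℝ L] [Lattice L] [HasSolidNorm L]
  [IsOrderedAddMonoid L] [PosSMulMono ℝ L] [CompleteSpace L] {E : Type u} [NormedAddCommGroup E]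
  [NormedSpace ℝ E] {δ : E →ₗᵢ[ℝ] L} {p : ℝ}

lemma attained_of_norm_one [CompleteSpace E] (hp : 1 ≤ p) (h : IsFBL p E L δ)
    (H : (E →L[ℝ] ℝ) → (L →L[ℝ] ℝ)) (H1 : ∀ f, IsLatHom (H f)) (H2 : ∀ f x, H f (δ x) = f x)
    (H3 : ∀ f, ‖H f‖ = ‖f‖) {f0 : E →L[ℝ] ℝ} (hf0 : ‖f0‖ = 1) {φ : L} (hφ : ‖φ‖ ≤ 1)
    (hφ1 : H f0 φ = 1) : ∃ x : E, ‖x‖ ≤ 1 ∧ f0 x = 1 := by
  classical
  have hp0 : 0 < p := by linarith
  have hC := CC_nonneg (p := p)
  let ι := {q : (E →L[ℝ] ℝ) × ℝ // ‖q.1‖ ≤ 1 ∧ 0 < q.2 ∧ q.2 ≤ 1 / 4}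
  let c : ι → ℝ := fun q =>
    (|H (f0 + q.1.2 • q.1.1) φ| ^ p - 1 - CC p * q.1.2 ^ 2) / (p * q.1.2)
  obtain ⟨F, hF1, hF2⟩ := mazur_orlicz (V := E →L[ℝ] ℝ) (W := ι →₀ ℝ) {l | ∀ i, 0 ≤ l i}
    (fun i => le_refl _) (fun a ha b hb i => add_nonneg (ha i) (hb i))
    (fun s hs a ha i => mul_nonneg hs.le (ha i))
    (Finsupp.linearCombination ℝ fun q : ι => q.1.1) (Finsupp.linearCombination ℝ c) (by
      intro l hl
      rw [Finsupp.linearCombination_apply, Finsupp.linearCombination_apply, Finsupp.sum,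
        Finsupp.sum, ← Finset.sum_coe_sort l.support (fun i => l i • c i),
        ← Finset.sum_coe_sort l.support (fun i => l i • i.1.1)]
      exact main_ineq hp h H H1 H2 hf0 hφ hφ1 (κ := l.support) (fun k => l k) (fun k => k.1.1.2)
        (fun k => k.1.1.1) (fun k => hl k) (fun k => k.1.2.2.1) (fun k => k.1.2.2.2)
        (fun k => k.1.2.1))
  have hFc : ∀ (z : E →L[ℝ] ℝ) (t : ℝ), ‖z‖ ≤ 1 → 0 < t → t ≤ 1 / 4 →
      (|H (f0 + t • z) φ| ^ p - 1 - CC p * t ^ 2) / (p * t) ≤ F z := by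
    intro z t hz ht0 ht1
    have h1 := hF2 (Finsupp.single (⟨(z, t), hz, ht0, ht1⟩ : ι) 1) (by
      intro i
      rw [Finsupp.single_apply]
      split_ifs <;> norm_num)
    rw [Finsupp.linearCombination_single, Finsupp.linearCombination_single, one_smul,
      one_smul] at h1
    exact h1
  have hlow : ∀ ε > 0, ∃ (Y : Finset E) (η : ℝ), 0 < η ∧ ∀ z : E →L[ℝ] ℝ, ‖z‖ ≤ 1 →
      (∀ y ∈ Y, |z y| ≤ η) → -ε ≤ F z := by
    intro ε hε
    set t := min (1 / 4) (ε / 2 * p / (CC p + 1)) with ht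
    have ht0 : 0 < t := by rw [ht]; exact lt_min (by norm_num) (by positivity)
    have ht1 : t ≤ 1 / 4 := min_le_left _ _
    have ht2 : CC p * t ≤ ε / 2 * p := by
      have : t ≤ ε / 2 * p / (CC p + 1) := min_le_right _ _
      rw [le_div_iff₀ (by positivity)] at this
      nlinarith
    set ε' := min 1 (t * ε / 2) with hε'
    have hε0 : 0 < ε' := lt_min one_pos (by positivity)
    have hε1 : ε' ≤ 1 := min_le_left _ _
    have hε2 : ε' ≤ t * ε / 2 := min_le_right _ _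
    obtain ⟨Y, η, hη, hY⟩ := cont hp h H H1 H2 H3 f0 φ ε' hε0
    refine ⟨Y, η, hη, fun z hz hzY => ?_⟩
    have h1 := hY (t • z) (by
      rw [norm_smul, Real.norm_of_nonneg ht0.le]
      nlinarith [norm_nonneg z]) (fun y hy => by
        show |t * z y| ≤ η
        rw [abs_mul, abs_of_pos ht0]
        have := hzY y hy
        nlinarith [abs_nonneg (z y)])
    rw [hφ1] at h1
    have h2 := abs_le.1 h1
    have h3 : 1 - p * ε' ≤ |H (f0 + t • z) φ| ^ p := by
      have h4 : (1 : ℝ) + p * (-ε') ≤ (1 + -ε') ^ p :=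
        one_add_mul_self_le_rpow_one_add (by linarith) hp
      have h5 : (1 + -ε') ^ p ≤ |H (f0 + t • z) φ| ^ p := by
        apply Real.rpow_le_rpow (by linarith) _ hp0.le
        refine le_trans ?_ (le_abs_self _)
        linarith
      linarith
    refine le_trans ?_ (hFc z t hz ht0 ht1)
    rw [le_div_iff₀ (by positivity)]
    have h6 : p * ε' ≤ p * (t * ε / 2) := mul_le_mul_of_nonneg_left hε2 hp0.le
    have h7 : CC p * t * t ≤ ε / 2 * p * t := mul_le_mul_of_nonneg_right ht2 ht0.le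
    nlinarith
  obtain ⟨x0, hx0, hFx⟩ := repr_of_cont F hF1 (by
    intro ε hε
    obtain ⟨Y, η, hη, hY⟩ := hlow ε hε
    refine ⟨Y, η, hη, fun z hz hzY => ?_⟩
    rw [abs_le]
    refine ⟨hY z hz hzY, ?_⟩
    have h1 := hY (-z) (by rwa [norm_neg]) (fun y hy => by
      show |-(z y)| ≤ η
      rw [abs_neg]
      exact hzY y hy)
    rw [map_neg] at h1
    linarith)
  refine ⟨x0, hx0, ?_⟩
  have hup : f0 x0 ≤ 1 := by
    have h1 := f0.le_opNorm x0
    rw [hf0, one_mul] at h1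
    exact (le_abs_self _).trans (h1.trans hx0)
  have hlo : ∀ t : ℝ, 0 < t → t ≤ 1 / 4 → 1 - CC p / p * t ≤ f0 x0 := by
    intro t ht0 ht1
    have h1 := hFc f0 t hf0.le ht0 ht1
    rw [← hFx f0]
    refine le_trans ?_ h1
    have h2 : H (f0 + t • f0) = (1 + t) • H f0 := by
      apply hom_unique hp h (H1 _) (isLatHom_smul (H1 _) (by linarith))
      intro x
      show H (f0 + t • f0) (δ x) = (1 + t) * H f0 (δ x)
      rw [H2, H2]
      show f0 x + t * f0 x = _
      ring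
    have h3 : H (f0 + t • f0) φ = 1 + t := by
      rw [h2]
      show (1 + t) * H f0 φ = _
      rw [hφ1, mul_one]
    rw [h3, abs_of_pos (by linarith), le_div_iff₀ (by positivity)]
    have h4 : 1 + p * t ≤ (1 + t) ^ p := one_add_mul_self_le_rpow_one_add (by linarith) hp
    have h5 : (1 - CC p / p * t) * (p * t) = p * t - CC p * t ^ 2 := by
      field_simp
    rw [h5]
    linarith
  apply le_antisymm hup
  by_contra hcon
  rw [not_le] at hcon
  set d := 1 - f0 x0 with hd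
  have hd0 : 0 < d := by linarith
  set t := min (1 / 4) (d / (2 * (CC p / p + 1))) with ht
  have hCp : 0 ≤ CC p / p := by positivity
  have ht0 : 0 < t := lt_min (by norm_num) (by positivity)
  have h1 := hlo t ht0 (min_le_left _ _)
  have h2 : t ≤ d / (2 * (CC p / p + 1)) := min_le_right _ _
  rw [le_div_iff₀ (by positivity)] at h2
  nlinarith

/-- **Positive answer to Q1.** Let `(L, δ)` be the free `p`-convex Banach lattice over the Banach
space `E`, `1 ≤ p < ∞`, and `ψ` the lattice homomorphism `L → ℝ` extending `x^*`. Then `x^*` attains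
its norm if and only if `ψ` does. -/
theorem result (p : ℝ) (hp : 1 ≤ p) (E : Type u) [NormedAddCommGroup E] [NormedSpace ℝ E]
    [CompleteSpace E] (L : Type u) [NormedAddCommGroup L] [NormedSpace ℝ L] [Lattice L]
    [HasSolidNorm L] [IsOrderedAddMonoid L] [PosSMulMono ℝ L] [CompleteSpace L]
    (δ : E →ₗᵢ[ℝ] L) (h : IsFBL p E L δ) (xs : E →L[ℝ] ℝ) (ψ : L →L[ℝ] ℝ) (hψ : IsLatHom ψ)
    (hext : ∀ x, ψ (δ x) = xs x) :
    (∃ x : E, ‖x‖ ≤ 1 ∧ xs x = ‖xs‖) ↔ ∃ φ : L, ‖φ‖ ≤ 1 ∧ ψ φ = ‖ψ‖ := by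
  choose H H1 H2 H3 using exists_hom hp h
  have hψH : ψ = H xs := hom_unique hp h hψ (H1 xs) (fun x => by rw [hext, H2])
  have hψn : ‖ψ‖ = ‖xs‖ := by rw [hψH, H3]
  constructor
  · rintro ⟨x, hx, hxx⟩
    refine ⟨δ x, by rwa [δ.norm_map], ?_⟩
    rw [hext, hψn, hxx]
  · rintro ⟨φ, hφ, hφx⟩
    rcases eq_or_ne xs 0 with h0 | h0
    · refine ⟨0, by simp, ?_⟩
      rw [h0]
      simp
    · have hn : 0 < ‖xs‖ := norm_pos_iff.2 h0
      have hf0 : ‖‖xs‖⁻¹ • xs‖ = 1 := by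
        rw [norm_smul, norm_inv, norm_norm, inv_mul_cancel₀ hn.ne']
      have hH : H (‖xs‖⁻¹ • xs) = ‖xs‖⁻¹ • H xs := by
        apply hom_unique hp h (H1 _) (isLatHom_smul (H1 _) (by positivity))
        intro x
        show H (‖xs‖⁻¹ • xs) (δ x) = ‖xs‖⁻¹ * H xs (δ x)
        rw [H2, H2]
        rfl
      obtain ⟨x, hx, hxx⟩ := attained_of_norm_one hp h H H1 H2 H3 hf0 hφ (by
        rw [hH]
        show ‖xs‖⁻¹ * H xs φ = 1
        rw [← hψH, hφx, hψn, inv_mul_cancel₀ hn.ne'])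
      refine ⟨x, hx, ?_⟩
      have h1 : ‖xs‖⁻¹ * xs x = 1 := hxx
      rwa [inv_mul_eq_one₀ hn.ne', eq_comm] at h1

end Pool.Agent.Results.MP_43bafb_an.NormAttaining
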